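import Mathlib
import Pool.Agent.helper23.EW.Sparse
import Pool.Agent.helper23.EW.Pair
import Pool.Agent.helper23.EW.Gap

/-!
# Even Erdős–Woods numbers: density and small gaps

`NC a d`: every integer strictly between `a` and `a + d` has a common prime factor with `a` or with
`a + d`; `d ≥ 3` is an Erdős–Woods number if `NC a d` holds for some `a`.

For every `C > 2` and `c < 1/2 - 1/C`, for all large `x`, at least `c x / log x` even Erdős–Woods numbers
`d ≤ x` have a further even Erdős–Woods number in `(d, d + C log d]`.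

Idea: if `p, r` are primes, `r ∣ p - 1` and `r ^ 2 > p + r` then `p + r` is an Erdős–Woods number, and it
determines `p`. By Goldfeld's method (Bombieri–Vinogradov, Brun–Titchmarsh) at least
`(1/2 - ε) x / log x` primes `p ≤ x` admit such an `r`, and `r = o(p)` for almost all of them.
-/

set_option autoImplicit false

namespace Pool.Agent.Results.MP_af2709_nt.DensitySmallGaps

open Pool.Agent.helper23.EW Finset Filter

theorem evenEW_card {c : ℝ} (hc : c < 1 / 2) : ∃ x₀ : ℕ, ∀ x : ℕ, x₀ ≤ x →
    c * x / Real.log x ≤ (evenEW x).card := by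
  classical
  set c' : ℝ := max c 0 with hc'
  have hc0 : 0 ≤ c' := le_max_right _ _
  have hc3 : c' < 1 / 2 := max_lt hc (by norm_num)
  set δ : ℝ := (1 / 2 - c') / 4 with hδ
  have hδ0 : 0 < δ := by rw [hδ]; linarith
  have hδ1 : δ ≤ 1 / 8 := by rw [hδ]; linarith
  set K : ℕ := ⌈1 / δ⌉₊ with hK
  have hKδ : 1 / δ ≤ K := Nat.le_ceil _
  obtain ⟨x₁, h1⟩ := good_card (c := 1 / 2 - δ) (by linarith)
  obtain ⟨x₂, h2⟩ := bad_card K hδ0
  have htend : Tendsto (fun x : ℕ => K * x / (K + 1)) atTop atTop := by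
    refine tendsto_atTop_mono (f := fun x : ℕ => x / 2) (fun x => ?_)
      (Nat.tendsto_div_const_atTop (by norm_num))
    have hK1 : 1 ≤ K := by
      have : (0 : ℝ) < K := lt_of_lt_of_le (by positivity) hKδ
      exact_mod_cast this
    rw [Nat.le_div_iff_mul_le (by omega)]
    have e1 : x / 2 * 2 ≤ x := Nat.div_mul_le_self x 2
    have e2 : x / 2 * (K + 1) ≤ x / 2 * (2 * K) := Nat.mul_le_mul_left _ (by omega)
    calc x / 2 * (K + 1) ≤ x / 2 * (2 * K) := e2
      _ = K * (x / 2 * 2) := by ring
      _ ≤ K * x := Nat.mul_le_mul_left _ e1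
  have hev : ∀ᶠ x : ℕ in atTop, c * x / Real.log x ≤ (evenEW x).card := by
    filter_upwards [htend.eventually_ge_atTop x₁, htend.eventually_ge_atTop x₂,
      htend.eventually_ge_atTop 3, eventually_ge_atTop 3,
      tendsto_natCast_atTop_atTop.eventually_ge_atTop (1 / δ)] with x e1 e2 e3 e4 e5
    set y : ℕ := K * x / (K + 1) with hy
    have hy1 : (K + 1) * y ≤ K * x := by
      rw [hy, mul_comm]
      exact Nat.div_mul_le_self _ _
    have hy2 : K * x < (K + 1) * (y + 1) := by
      rw [hy]
      exact Nat.lt_mul_div_succ _ (by omega)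
    have hyx : y ≤ x := by
      have : (K + 1) * y ≤ (K + 1) * x := hy1.trans (Nat.mul_le_mul_right x (by omega))
      exact Nat.le_of_mul_le_mul_left this (by omega)
    have hxR : (3 : ℝ) ≤ x := by exact_mod_cast e4
    have hyR : (3 : ℝ) ≤ y := by exact_mod_cast e3
    have hly : 0 < Real.log y := Real.log_pos (by linarith)
    have hlx : 0 < Real.log x := Real.log_pos (by linarith)
    have hlyx : Real.log y ≤ Real.log x := Real.log_le_log (by linarith) (by exact_mod_cast hyx)
    have h3 := h1 y e1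
    have h4 := h2 y e2
    have h5 : ((good y).card : ℝ) ≤ (evenEW x).card + (bad K y).card := by
      have a1 : (good y).card ≤ (good y \ bad K y).card + (bad K y).card := by
        have := Finset.le_card_sdiff (bad K y) (good y)
        omega
      have a2 : (good y \ bad K y).card ≤ (evenEW x).card := by
        convert card_sdiff_le hy1
      have a3 : (good y).card ≤ (evenEW x).card + (bad K y).card := by omega
      exact_mod_cast a3
    have h6 : (1 - δ) * x - 1 ≤ y := by
      have a1 : (K : ℝ) * x < (K + 1) * (y + 1) := by exact_mod_cast hy2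
      have hK0 : (0 : ℝ) < (K : ℝ) + 1 := by positivity
      have a2 : 1 ≤ δ * ((K : ℝ) + 1) := by
        rw [div_le_iff₀ hδ0] at hKδ
        nlinarith
      have a3 : ((K : ℝ) + 1) * ((1 - δ) * x) ≤ K * x := by
        have : ((K : ℝ) + 1) * ((1 - δ) * x) = ((K : ℝ) + 1 - δ * (K + 1)) * x := by ring
        rw [this]
        have : (K : ℝ) + 1 - δ * (K + 1) ≤ K := by linarith
        gcongr
      have a4 : ((K : ℝ) + 1) * ((1 - δ) * x) ≤ ((K : ℝ) + 1) * (y + 1) := by linarith
      have a5 := le_of_mul_le_mul_left a4 hK0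
      linarith
    have h7 : c * x ≤ (1 / 2 - 2 * δ) * y := by
      have a1 : c * x ≤ c' * x := by
        apply mul_le_mul_of_nonneg_right (le_max_left _ _); linarith
      have a2 : (1 / 2 - 2 * δ) * ((1 - δ) * x - 1) ≤ (1 / 2 - 2 * δ) * y := by
        apply mul_le_mul_of_nonneg_left h6; linarith
      have a3 : c' = 1 / 2 - 4 * δ := by rw [hδ]; ring
      have a4 : 1 ≤ x * δ := by rwa [div_le_iff₀ hδ0] at e5
      have a5 : c' * x ≤ (1 / 2 - 2 * δ) * ((1 - δ) * x - 1) := by
        rw [a3]
        nlinarith [mul_pos hδ0 hδ0]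
      linarith
    have h8 : (1 / 2 - 2 * δ) * y / Real.log y ≤ (evenEW x).card := by
      have a1 : (1 / 2 - 2 * δ) * y / Real.log y =
          (1 / 2 - δ) * y / Real.log y - δ * y / Real.log y := by ring
      linarith
    have h9 : 0 ≤ (1 / 2 - 2 * δ) * (y : ℝ) := by
      apply mul_nonneg <;> linarith
    calc c * x / Real.log x ≤ (1 / 2 - 2 * δ) * y / Real.log x := by gcongr
      _ ≤ (1 / 2 - 2 * δ) * y / Real.log y := by gcongr
      _ ≤ _ := h8
  exact eventually_atTop.1 hev

open Classical in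
theorem result (C c : ℝ) (hC : 2 < C) (hc : c < 1 / 2 - 1 / C) :
    ∃ x₀ : ℕ, ∀ x : ℕ, x₀ ≤ x → c * x / Real.log x ≤
      ((Icc 1 x).filter (fun d => (Even d ∧ ErdosWoods d) ∧
        ∃ d' : ℕ, d < d' ∧ (d' : ℝ) - d ≤ C * Real.log d ∧ Even d' ∧ ErdosWoods d')).card := by
  have hC0 : 0 < C := by linarith
  set c₁ : ℝ := (c + 1 / C + 1 / 2) / 2 with hc₁
  have h1 : c₁ < 1 / 2 := by rw [hc₁]; linarith
  have h2 : c < c₁ - 1 / C := by rw [hc₁]; linarith
  have key := many_gaps (fun d => Even d ∧ ErdosWoods d) (c := c) hC0 h2 (by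
    obtain ⟨x₀, h⟩ := evenEW_card h1
    refine ⟨x₀, fun x hx => ?_⟩
    have h4 := h x hx
    unfold evenEW at h4
    convert h4)
  obtain ⟨x₀, h⟩ := key
  refine ⟨x₀, fun x hx => ?_⟩
  convert h x hx

end Pool.Agent.Results.MP_af2709_nt.DensitySmallGaps
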